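import Pool.Agent.Helper74K9.PS.St

/-! # Weights on the tight cliques which minimise the sum of the last vertices -/

set_option autoImplicit false

namespace Pool.Agent.Helper59K9.PS

open Finset Pool.Agent.Helper83K9.CF Pool.Agent.Helper74K9.PS

namespace MinL

variable {q : ℕ → ℕ → Prop} {k N t : ℕ} {f : ℕ → ℝ}

/-- the sum of the last vertices -/
noncomputable def Phi (N : ℕ) (w : Finset ℕ → ℝ) : ℝ :=
  ∑ Y ∈ (range N).powerset, w Y * ((Y.sup id : ℕ) : ℝ)

/-- the weights on the tight cliques with the loads of `w` -/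
def WS (q : ℕ → ℕ → Prop) (k N t : ℕ) (f : ℕ → ℝ) (w : Finset ℕ → ℝ) : Set (Finset ℕ → ℝ) :=
  {w' | Wt q k N t f w' ∧ ∀ v, load N w' v = load N w v}

theorem mem_pow {Y : Finset ℕ} (hY : Tgt q k N t f Y) : Y ∈ (range N).powerset :=
  Finset.mem_powerset.2 hY.cq.2.1

theorem load_nonneg {w : Finset ℕ → ℝ} (hw : ∀ Y, 0 ≤ w Y) (v : ℕ) : 0 ≤ load N w v := by
  unfold load
  refine Finset.sum_nonneg fun Y _ => ?_
  split_ifs
  · exact hw Y
  · exact le_refl _

theorem le_load {w : Finset ℕ → ℝ} (hw : ∀ Y, 0 ≤ w Y) {Y : Finset ℕ} {v : ℕ} (hv : v ∈ Y)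
    (hY : Y ∈ (range N).powerset) : w Y ≤ load N w v := by
  unfold load
  have h := Finset.single_le_sum (f := fun Y => if v ∈ Y then w Y else 0)
    (fun Z _ => by
      show (0 : ℝ) ≤ if v ∈ Z then w Z else 0
      split_ifs
      · exact hw Z
      · exact le_refl _) hY
  simpa only [if_pos hv] using h

theorem continuous_load (v : ℕ) : Continuous fun w : Finset ℕ → ℝ => load N w v := by
  unfold load
  refine continuous_finsetSum _ fun Y _ => ?_
  by_cases h : v ∈ Y
  · simp only [if_pos h]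
    exact continuous_apply Y
  · simp only [if_neg h]
    exact continuous_const

theorem continuous_Phi : Continuous fun w : Finset ℕ → ℝ => Phi N w := by
  unfold Phi
  exact continuous_finsetSum _ fun Y _ => (continuous_apply Y).mul continuous_const

theorem isClosed_WS (w : Finset ℕ → ℝ) : IsClosed (WS q k N t f w) := by
  have h1 : WS q k N t f w = (⋂ Y, {w' : Finset ℕ → ℝ | 0 ≤ w' Y}) ∩
      (⋂ Y, ⋂ (_ : ¬ Tgt q k N t f Y), {w' : Finset ℕ → ℝ | w' Y = 0}) ∩
      ⋂ v, {w' : Finset ℕ → ℝ | load N w' v = load N w v} := by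
    ext w'
    simp only [WS, Wt, Set.mem_setOf_eq, Set.mem_inter_iff, Set.mem_iInter]
    constructor
    · rintro ⟨⟨h1, h2⟩, h3⟩
      exact ⟨⟨h1, fun Y hY => by by_contra h; exact hY (h2 Y h)⟩, h3⟩
    · rintro ⟨⟨h1, h2⟩, h3⟩
      exact ⟨⟨h1, fun Y hY => by by_contra h; exact hY (h2 Y h)⟩, h3⟩
  rw [h1]
  refine (IsClosed.inter (isClosed_iInter fun Y => ?_) (isClosed_iInter fun Y =>
    isClosed_iInter fun _ => ?_)).inter (isClosed_iInter fun v => ?_)
  · exact isClosed_le continuous_const (continuous_apply Y)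
  · exact isClosed_eq (continuous_apply Y) continuous_const
  · exact isClosed_eq (continuous_load v) continuous_const

theorem isCompact_WS (w : Finset ℕ → ℝ) (hw : ∀ Y, 0 ≤ w Y) : IsCompact (WS q k N t f w) := by
  have h1 : IsCompact (Set.pi Set.univ fun _ : Finset ℕ =>
      Set.Icc (0 : ℝ) (∑ v ∈ range N, load N w v)) := isCompact_univ_pi fun _ => isCompact_Icc
  refine h1.of_isClosed_subset (isClosed_WS w) ?_
  rintro w' ⟨⟨h2, h3⟩, h4⟩ Y _
  refine ⟨h2 Y, ?_⟩
  by_cases hY : w' Y = 0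
  · rw [hY]
    exact Finset.sum_nonneg fun v _ => load_nonneg hw v
  · have h5 := h3 Y hY
    obtain ⟨v, hv⟩ := h5.cq.1
    have h6 := le_load h2 hv (mem_pow h5)
    rw [h4 v] at h6
    refine h6.trans ?_
    exact Finset.single_le_sum (f := fun v => load N w v) (fun v _ => load_nonneg hw v)
      (h5.cq.2.1 hv)

/-- exchange -/
theorem sum_exchange (w : Finset ℕ → ℝ) (ε : ℝ) {X Y X' Y' : Finset ℕ}
    (hX : X ∈ (range N).powerset) (hY : Y ∈ (range N).powerset)
    (hX' : X' ∈ (range N).powerset) (hY' : Y' ∈ (range N).powerset) (g : Finset ℕ → ℝ) :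
    ∑ Z ∈ (range N).powerset, (w Z + ε * (((if Z = X' then 1 else 0) + (if Z = Y' then 1 else 0)) -
      ((if Z = X then 1 else 0) + (if Z = Y then 1 else 0)))) * g Z =
    ∑ Z ∈ (range N).powerset, w Z * g Z + ε * ((g X' + g Y') - (g X + g Y)) := by
  have h : ∀ A ∈ (range N).powerset,
      ∑ Z ∈ (range N).powerset, (if Z = A then (1 : ℝ) else 0) * g Z = g A := by
    intro A hA
    rw [Finset.sum_eq_single A]
    · rw [if_pos rfl, one_mul]
    · intro B _ hB
      rw [if_neg hB, zero_mul]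
    · exact fun h => absurd hA h
  rw [← h X hX, ← h Y hY, ← h X' hX', ← h Y' hY', ← Finset.sum_add_distrib,
    ← Finset.sum_add_distrib, ← Finset.sum_sub_distrib, Finset.mul_sum, ← Finset.sum_add_distrib]
  refine Finset.sum_congr rfl fun Z _ => ?_
  ring

theorem load_eq (w : Finset ℕ → ℝ) (v : ℕ) :
    load N w v = ∑ Z ∈ (range N).powerset, w Z * (if v ∈ Z then 1 else 0) := by
  unfold load
  refine Finset.sum_congr rfl fun Z _ => ?_
  split_ifs <;> ring

/-- the sum of the weights times a sum over the points -/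
theorem sum_points (w : Finset ℕ → ℝ) (g : ℕ → ℝ) :
    ∑ Y ∈ (range N).powerset, w Y * ∑ x ∈ Y, g x = ∑ v ∈ range N, g v * load N w v := by
  have h1 : ∀ Y ∈ (range N).powerset, w Y * ∑ x ∈ Y, g x =
      ∑ v ∈ range N, g v * (if v ∈ Y then w Y else 0) := by
    intro Y hY
    rw [Finset.mem_powerset] at hY
    rw [Finset.mul_sum, ← Finset.sum_subset hY]
    · refine Finset.sum_congr rfl fun x hx => ?_
      rw [if_pos hx, mul_comm]
    · intro x _ hx
      rw [if_neg hx, mul_zero]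
  rw [Finset.sum_congr rfl h1, Finset.sum_comm]
  refine Finset.sum_congr rfl fun v _ => ?_
  unfold load
  rw [Finset.mul_sum]

theorem dfc_eq (ht : 1 ≤ t) {w w' : Finset ℕ → ℝ} (hw : Wt q k N t f w) (hw' : Wt q k N t f w')
    (h : ∀ v, load N w' v = load N w v) : dfc N t w' = dfc N t w := by
  have h1 : ∀ w : Finset ℕ → ℝ, Wt q k N t f w →
      dfc N t w = ∑ v ∈ range N, f v * load N w v - ∑ v ∈ range N, 1 * load N w v := by
    intro w hw
    rw [← sum_points, ← sum_points, ← Finset.sum_sub_distrib]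
    unfold dfc
    refine Finset.sum_congr rfl fun Y _ => ?_
    by_cases hY : w Y = 0
    · rw [hY]
      ring
    · rw [(hw.2 Y hY).eq, Finset.sum_const, nsmul_eq_mul, mul_one]
      ring
  rw [h1 w hw, h1 w' hw']
  simp only [h]

end MinL

open MinL in
theorem min_ : S_MIN := by
  intro t k N q f w ht hw
  have hne : (WS q k N t f w).Nonempty := ⟨w, hw, fun _ => rfl⟩
  obtain ⟨w', ⟨hw', hl⟩, hmin⟩ := (isCompact_WS (q := q) (k := k) (N := N) (t := t) (f := f) w
    hw.1).exists_isMinOn hne (continuous_Phi (N := N)).continuousOn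
  refine ⟨w', hw', hl, dfc_eq ht hw hw' hl, ?_⟩
  intro X Y X' Y' hX hY hX' hY' hind
  by_contra hlt
  rw [not_le] at hlt
  have hXp := (hw'.1 X).lt_of_ne' hX
  have hYp := (hw'.1 Y).lt_of_ne' hY
  obtain ⟨ε, hε, hεX, hεY⟩ : ∃ ε : ℝ, 0 < ε ∧ 2 * ε ≤ w' X ∧ 2 * ε ≤ w' Y := by
    refine ⟨min (w' X) (w' Y) / 2, by positivity, ?_, ?_⟩
    · linarith [min_le_left (w' X) (w' Y)]
    · linarith [min_le_right (w' X) (w' Y)]
  have mX := mem_pow (hw'.2 X hX)
  have mY := mem_pow (hw'.2 Y hY)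
  have mX' := mem_pow hX'
  have mY' := mem_pow hY'
  set u : Finset ℕ → ℝ := fun Z => w' Z + ε * (((if Z = X' then 1 else 0) +
    (if Z = Y' then 1 else 0)) - ((if Z = X then 1 else 0) + (if Z = Y then 1 else 0))) with hu
  have hu0 : ∀ Z, 0 ≤ u Z := by
    intro Z
    have h0 := hw'.1 Z
    have h1 : (0 : ℝ) ≤ (if Z = X' then 1 else 0) := by split_ifs <;> norm_num
    have h2 : (0 : ℝ) ≤ (if Z = Y' then 1 else 0) := by split_ifs <;> norm_num
    have h3 : ε * ((if Z = X then 1 else 0) + (if Z = Y then 1 else 0)) ≤ w' Z := by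
      by_cases hZX : Z = X
      · by_cases hZY : Z = Y
        · rw [if_pos hZX, if_pos hZY, hZX]
          linarith
        · rw [if_pos hZX, if_neg hZY, hZX]
          linarith
      · by_cases hZY : Z = Y
        · rw [if_neg hZX, if_pos hZY, hZY]
          linarith
        · rw [if_neg hZX, if_neg hZY]
          linarith
    show 0 ≤ w' Z + ε * (((if Z = X' then 1 else 0) + (if Z = Y' then 1 else 0)) -
      ((if Z = X then 1 else 0) + (if Z = Y then 1 else 0)))
    nlinarith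
  have hut : ∀ Z, u Z ≠ 0 → Tgt q k N t f Z := by
    intro Z hZ
    by_cases h1 : Z = X'
    · rw [h1]
      exact hX'
    · by_cases h2 : Z = Y'
      · rw [h2]
        exact hY'
      · by_cases h3 : w' Z = 0
        · exfalso
          apply hZ
          have h4 : Z ≠ X := fun h => hX (h ▸ h3)
          have h5 : Z ≠ Y := fun h => hY (h ▸ h3)
          simp only [hu, h3, if_neg h1, if_neg h2, if_neg h4, if_neg h5]
          ring
        · exact hw'.2 Z h3
  have hul : ∀ v, load N u v = load N w v := by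
    intro v
    rw [← hl v, load_eq, load_eq]
    have h1 := sum_exchange (N := N) w' ε mX mY mX' mY' (fun Z => if v ∈ Z then 1 else 0)
    have h2 := congrArg (fun n : ℕ => (n : ℝ)) (hind v)
    push_cast at h2
    rw [hu, h1, ← h2, sub_self, mul_zero, add_zero]
  have hmem : u ∈ WS q k N t f w := ⟨⟨hu0, hut⟩, hul⟩
  have hle := hmin hmem
  have hle' : Phi N w' ≤ Phi N u := hle
  have h1 := sum_exchange (N := N) w' ε mX mY mX' mY' (fun Z => ((Z.sup id : ℕ) : ℝ))
  have h2 : Phi N u = Phi N w' + ε * ((((X'.sup id : ℕ) : ℝ) + ((Y'.sup id : ℕ) : ℝ)) -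
    (((X.sup id : ℕ) : ℝ) + ((Y.sup id : ℕ) : ℝ))) := h1
  have h3 : (((X'.sup id : ℕ) : ℝ) + ((Y'.sup id : ℕ) : ℝ)) <
    (((X.sup id : ℕ) : ℝ) + ((Y.sup id : ℕ) : ℝ)) := by exact_mod_cast hlt
  have h4 : ε * ((((X'.sup id : ℕ) : ℝ) + ((Y'.sup id : ℕ) : ℝ)) -
    (((X.sup id : ℕ) : ℝ) + ((Y.sup id : ℕ) : ℝ))) < 0 :=
    mul_neg_of_pos_of_neg hε (by linarith)
  linarith

end Pool.Agent.Helper59K9.PS
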